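import Pool.Agent.N17.HC.KOS
import Pool.Agent.N17.HC.LSP
import Pool.Agent.N17.HC.ALG
import Pool.Agent.N17.HC.ANA
import Pool.Agent.N17.HC.FAC
import Pool.Agent.N17.HC.CUBE
import Pool.Agent.N17.HC.REC
import Pool.Agent.N17.HC.CHR
import Pool.Agent.N17.HC.DIV
import Pool.Agent.N17.HC.CUB
import Pool.Agent.N17.HC.FIN
import Pool.Agent.R852.BC.Main
import Pool.Agent.N17.CK.POSEND
import Pool.Agent.U256.LS5

/-!
# Smooth subvarieties of arbitrary codimension and small degree in large projective spaces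

Let `X ⊂ ℙ^N` be a smooth subvariety of codimension `r` and degree `d`, `N ≥ 4 r`. By Barth and
Larsen the groups `H^(2 i)(X, ℤ)`, `i ≤ r`, are generated by the powers of the hyperplane class `h`,
so the Chern polynomial `P = T^r - c₁ T^(r-1) + c₂ T^(r-2) - ...` of the normal bundle
(`c_i(N_X) = c_i h^i`) has integral coefficients; its complex roots `β_i` are the Chern roots of `N_X`
in units of `h`, and `c_r = β_1 ... β_r = d` (self-intersection formula). `X` is numerically a complete
intersection of hypersurfaces of degrees `a_1, ..., a_r` if and only if `β_i = a_i`; then it has the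
degree, the canonical class, the Chern classes and the Hilbert polynomial of a complete intersection.
The following is known about `P`:

* `N_X(-1)`, a quotient of `T_ℙ(-1)`, is globally generated, so its Chern classes are not negative:
  the coefficients of `P(T + 1)` have the signs `+, -, +, ...`;
* `χ(O_X(t))` is an integer for all `t`; by the theorem of Riemann-Roch it is the Koszul sum
  `Σ_S (-1)^|S| χ(ℙ^N, O(t - Σ_(i ∈ S) β_i))`;
* `χ(N_X^*(t))` is an integer for all `t`; it is `Σ_i χ(O_X(t - β_i))`.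

We show for every `r ≥ 1`, `ε > 0` and all `N ≥ N₀(r, ε)`: if a Chern root has the degree `m ≥ 2` over
`ℚ`, then `d > N ^ (e(m) - ε)`, where `e(2) = 2 √e`, `e(3) = √e`, `e(m) = m / 2` for `m ≥ 4`. So `X` is
numerically a complete intersection if

  `d ≤ N ^ (√e - ε)`,  `√e = 1.648...`.

In `Results/MP_014caa_ag/CodimensionThreeFour.lean` this is shown for `r = 3`, and with the exponent
`2 √e / 3 = 1.099...` for `r = 4`; the exponent is now independent of `r`.

The proof. (1) By the two integrality conditions `P` splits modulo every prime `r < p ≤ N - 2 r + 1`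
which does not divide `d` (project HC). (2) By the positivity the sum of the absolute values of the
coefficients of `P(T + 1)` is `d`; so its Mahler measure is at most `d`, and `∏ (1 + |β_i|) ≤ 3^r d`.
(3) A larger sieve for binary forms: let `Q` be an irreducible factor of `P` of degree `m`, which splits
modulo `p`, `p` not dividing its discriminant, with the roots `ρ_1, ..., ρ_m`; `F(x, z) = ∏ (x - β z)`
the form of `Q`, and `V` a set of `y ~ N` pairs `(x, z)`, `0 ≤ x, z ≤ √y`. For each `p` and `i` there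
are at least `|V|² / p - |V|` pairs of different elements `v`, `v'` of `V` in the same class modulo `p`
with respect to `x - ρ_i z`, and `p` divides `F(v - v')`, with the right multiplicity. Summation of
`log p` over all these gives `m |V|² (log y - O(1)) ≤ Σ log |F(v - v')| ≤ |V|² log (y^(m/2) ∏ (1 + |β|))`,
so that `∏ (1 + |β|) ≥ y^(m / 2 - ε)`. (4) For `m = 2` and `m = 3` the lemmas of the project HC on
quadratic and cubic polynomials (Burgess, Vinogradov, cubic reciprocity) are better.
-/

set_option autoImplicit false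

namespace Pool.Agent.Results.MP_014caa_ag.AllCodimensionsDegree

open Polynomial

/-- The Chern roots: the complex roots of `P` with multiplicities. -/
noncomputable def chernRoots (P : ℤ[X]) : Multiset ℂ := (P.map (Int.castRingHom ℂ)).roots

/-- The Chern numbers of `N_X(-1)`: `(-1)^i` times the coefficient of `T^(r - i)` in `P(T + 1)`,
`i ≤ r`. -/
noncomputable def chernTwist (r : ℕ) (P : ℤ[X]) (i : ℕ) : ℤ :=
  (-1) ^ i * (P.comp (X + 1)).coeff (r - i)

/-- `χ(ℙ^N, O(x)) = (x + 1) ... (x + N) / N!`. -/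
noncomputable def chiPN (N : ℕ) (x : ℂ) : ℂ :=
  (∏ j ∈ Finset.range N, (x + j + 1)) / N.factorial

/-- `χ(O_X(x)) = Σ_S (-1)^|S| χ(ℙ^N, O(x - β_S))`, `S` running over the submultisets of the multiset
of the Chern roots of the normal bundle, `β_S` the sum of the elements of `S`. -/
noncomputable def chiX (N : ℕ) (P : ℤ[X]) (x : ℂ) : ℂ :=
  ((chernRoots P).powerset.map fun S => (-1) ^ Multiset.card S * chiPN N (x - S.sum)).sum

/-- `χ(N_X^*(x)) = Σ_i χ(O_X(x - β_i))`. -/
noncomputable def chiConormal (N : ℕ) (P : ℤ[X]) (x : ℂ) : ℂ :=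
  ((chernRoots P).map fun b => chiX N P (x - b)).sum

/-- the exponents `e(2) = 2 √e`, `e(3) = √e`, `e(m) = m / 2` for `m ≥ 4` -/
noncomputable def exponent (m : ℕ) : ℝ :=
  if m = 2 then 2 * Real.exp (1 / 2) else if m = 3 then Real.exp (1 / 2) else m / 2

open Pool.Agent.N17.HC in
theorem bin_eq (N : ℕ) (x : ℂ) : bin N (N + x) = chiPN N x := by
  unfold bin chiPN
  congr 1
  rw [← Finset.prod_range_reflect]
  refine Finset.prod_congr rfl fun j hj => ?_
  have hj' := Finset.mem_range.1 hj
  rw [show N - 1 - j = N - (j + 1) by omega, Nat.cast_sub (by omega)]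
  push_cast
  ring

open Pool.Agent.N17.HC in
theorem kos_eq (N : ℕ) (P : ℤ[X]) (x : ℂ) : kos N (rootsOf P) (N + x) = chiX N P x := by
  unfold kos chiX
  change Multiset.sum (Multiset.map _ (Multiset.powerset (chernRoots P))) = _
  congr 1
  refine Multiset.map_congr rfl fun S _ => ?_
  rw [add_sub_assoc, bin_eq]

/-- **Smooth subvarieties of codimension `r`: a Chern root of degree `m ≥ 2` forces
`d > N ^ (e(m) - ε)`; if `d ≤ N ^ (√e - ε)`, they are numerically complete intersections.** -/
theorem result (r : ℕ) (hr : 1 ≤ r) (ε : ℝ) (hε : 0 < ε) : ∃ N₀ : ℕ, ∀ N : ℕ, N₀ ≤ N →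
    ∀ P : ℤ[X], P.Monic → P.natDegree = r →
    -- the Chern classes of `N_X(-1)` are not negative
    (∀ i ≤ r, 0 ≤ chernTwist r P i) →
    -- the Euler characteristics of `O_X(t)` and of `N_X^*(t)` are integers
    (∀ t : ℤ, ∃ z : ℤ, chiX N P t = z) →
    (∀ t : ℤ, ∃ z : ℤ, chiConormal N P t = z) →
    -- an irreducible factor of degree `m ≥ 2` of `P` forces `d = |P(0)| > N ^ (e(m) - ε)`
    (∀ Q : ℤ[X], Q.Monic → Irreducible Q → Q ∣ P → 2 ≤ Q.natDegree →
      (N : ℝ) ^ (exponent Q.natDegree - ε) < |(P.coeff 0 : ℝ)|) ∧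
    -- if `d ≤ N ^ (√e - ε)`, then `P` is the polynomial of a complete intersection
    (|(P.coeff 0 : ℝ)| ≤ (N : ℝ) ^ (Real.exp (1 / 2) - ε) →
      ∃ a : Fin r → ℤ, (∀ i, 1 ≤ a i) ∧ P = ∏ i, (X - C (a i))) := by
  have hM2 : Pool.Agent.N17.HC.S_M2 := Pool.Agent.R852.BC.main2
  have hCUB := Pool.Agent.N17.HC.t_CUB Pool.Agent.N17.HC.t_ALG hM2 Pool.Agent.N17.HC.t_FAC
    Pool.Agent.N17.HC.t_CUBE Pool.Agent.N17.HC.t_REC Pool.Agent.N17.HC.t_CHR
    Pool.Agent.N17.HC.t_DIV Pool.Agent.N17.HC.t_ANA
  obtain ⟨N₀, h⟩ := Pool.Agent.U256.LS.final_deg Pool.Agent.N17.HC.t_KOS Pool.Agent.N17.HC.t_LSP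
    hCUB hM2 Pool.Agent.N17.CK.t_POS r hr ε hε
  refine ⟨N₀ + 1, fun N hN P hP hd hpos h1 h2 => ?_⟩
  have hmain : ∀ Q : ℤ[X], Q.Monic → Irreducible Q → Q ∣ P → 2 ≤ Q.natDegree →
      (N : ℝ) ^ (exponent Q.natDegree - ε) < |(P.coeff 0 : ℝ)| := by
    refine h N (by omega) P hP hd hpos ?_ ?_
    · intro t
      obtain ⟨z, hz⟩ := h1 t
      exact ⟨z, by rw [kos_eq]; exact hz⟩
    · intro t
      obtain ⟨z, hz⟩ := h2 t
      refine ⟨z, ?_⟩
      rw [← hz]
      unfold chiConormal
      change Multiset.sum (Multiset.map _ (chernRoots P)) = _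
      congr 1
      refine Multiset.map_congr rfl fun b _ => ?_
      rw [add_sub_assoc, kos_eq]
  refine ⟨hmain, fun hle => ?_⟩
  obtain ⟨-, hposl⟩ := Pool.Agent.N17.CK.t_POS r P hP hd hpos
  refine Pool.Agent.N17.CK.t_END r P hP hd fun Q hQ hirr hQP => ?_
  have hN1 : (1 : ℝ) ≤ N := by
    have : 1 ≤ N := by omega
    exact_mod_cast this
  have hlt : ¬ 2 ≤ Q.natDegree := by
    intro h2
    have h3 := (hmain Q hQ hirr hQP h2).trans_le hle
    have h4 : Real.exp (1 / 2) ≤ exponent Q.natDegree := by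
      have e1 := Pool.Agent.N17.HC.FIN.exp_lb
      have e2 := Pool.Agent.N17.HC.FIN.exp_ub
      unfold exponent
      split_ifs with g1 g2
      · linarith
      · exact le_rfl
      · have : (4 : ℝ) ≤ Q.natDegree := by
          have : 4 ≤ Q.natDegree := by omega
          exact_mod_cast this
        linarith
    have h5 := Real.rpow_le_rpow_of_exponent_le hN1
      (show Real.exp (1 / 2) - ε ≤ exponent Q.natDegree - ε by linarith)
    linarith
  have hcases : Q.natDegree = 0 ∨ Q.natDegree = 1 := by omega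
  rcases hcases with h0 | h0
  · exact absurd (hQ.natDegree_eq_zero.1 h0) hirr.ne_one
  · have hQ1 : Q = X - C (- Q.coeff 0) := by
      rw [map_neg, sub_neg_eq_add]
      have := eq_X_add_C_of_natDegree_le_one h0.le
      rw [show Q.coeff 1 = 1 by rw [← h0]; exact hQ.coeff_natDegree, C_1, one_mul] at this
      exact this
    exact ⟨_, hposl _ (hQ1 ▸ hQP), hQ1⟩

end Pool.Agent.Results.MP_014caa_ag.AllCodimensionsDegree
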