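import Pool.Agent.U429.UF.Main

/-!
# The Chern roots of smooth subvarieties of `ℙ^N`, uniformly in the codimension

Let `X ⊂ ℙ^N` be a smooth subvariety of codimension `r`, `N ≥ 4 r`. By Barth and Larsen the groups
`H^(2 i)(X, ℤ)`, `i ≤ r`, are generated by the powers of the hyperplane class `h`, and `Pic X = ℤ h`;
so `ω_X = O_X(k)` for some `k`, and the Chern polynomial `P = T^r - c₁ T^(r-1) + c₂ T^(r-2) - ...` of
the normal bundle (`c_i(N_X) = c_i h^i`) has integral coefficients, `c₁ = k + N + 1` by adjunction.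
Its complex roots `β_i` are the Chern roots of `N_X` in units of `h`, and `c_r = β_1 ... β_r` is the
degree of `X` (self-intersection formula). `X` is numerically a complete intersection of hypersurfaces
of degrees `a_1, ..., a_r` if and only if `β_i = a_i`; then it has the degree, the canonical class, the
Chern classes and the Hilbert polynomial of a complete intersection. The following is known:

* `N_X(-1)` is globally generated, so the Schur polynomials of degree `≤ dim X = N - r` of its Chern
  classes are not negative (Fulton and Lazarsfeld): these are the minors of the Toeplitz matrix of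
  the signed coefficients of `P(T + 1)`;
* `χ((N_X^*)^{⊗ M}(t))` is an integer for all `M ≥ 0` and all `t`; by the theorem of Riemann-Roch
  this is `Σ χ(O_X(t - β_(i_1) - ... - β_(i_M)))`, and `χ(O_X(x))` is the Koszul sum
  `Σ_S (-1)^|S| χ(ℙ^N, O(x - Σ_(i ∈ S) β_i))`.

We show that there is an **absolute** constant `c > 0` such that **for all `N ≥ 2`, `r ≥ 1`, `B ≥ 1` with
`B r² log N ≤ c N`** and every smooth `X ⊂ ℙ^N` of codimension `r` with `c₁ ≤ B N` every irreducible
factor of `P` is linear, `T - a` with an integer `a ≥ 1`, or has two roots whose real parts differ by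
more than `6 N / 5`. In words: every Chern root of `N_X` is a positive integer, or the real parts of its
conjugates do not lie in an interval of length `6 N / 5`. Since the real parts are at least `1` and at
most `c₁`, it follows that `X` is **numerically a complete intersection if `ω_X = O_X(k)`,
`k + 1 ≤ N / 5`** (this is the theorem `fano` at the end). So this holds for all Fano and all Calabi-Yau
subvarieties of codimension `r ≤ c' √(N / log N)`, and for the subvarieties of general type with small
canonical class; and for a larger canonical class whenever the Chern roots lie in a strip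
`b ≤ Re β ≤ b + 6 N / 5`.

In `Results/MP_9a3fdb_ag/FanoAllCodimensions.lean` (helper256) `r` is fixed and `N ≥ N₀(r)`; that theorem
uses limits `N → ∞` for fixed `r` (Segre numbers and compactness for the location of the Chern roots,
Burgess' bound and cubic reciprocity for the quadratic and cubic factors), so that `N₀(r)` is not
known. In `Results/MP_9a3fdb_ag/UniformInCodimension.lean` the condition is `c₁ (r log N)² ≤ c N`.

The proof.
(1) Total positivity (`Sector`, `Roots`): if the minors of order `m` of the Toeplitz matrix of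
`c_0, ..., c_r` are not negative, then `Σ c_i y^i` has no zero in the sector
`|arg y| < π (m - 1) / (r + m - 1)` (a theorem of Schoenberg; proof: Cauchy-Binet formula and
Vandermonde determinants). With `m ~ N / r` the Chern roots satisfy `Re β_i ≥ 1` and
`|Im β_i| ≤ (8 r / m) Re (β_i - 1)`, so `|Im β_i| ≤ V = 9 B r²`.
(2) (`Val`, `Newton`) For every prime `p`, `w` its exponent in `deg X`, the power sums
`Σ_i f(β_i)` of all integer valued polynomials `f` of degree `≤ (N - r) / (w + 1)` are `p`-integral
(first pole of the generating function, tensor powers), and Newton's identities show that the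
`p`-adic valuation of `∏_(t < L) (β_i - a - t)` is at least the one of `L!` minus `8 r (w + 1)`, for
every `L ≤ 2 (N - r)`; the loss is independent of `L`.
(3) (`Large`) The primes `p > y = δ N / r`, `p ≤ N + 1 - 2 r`, not dividing `deg X`: `P` splits modulo
`p`. If `Q` is an irreducible factor of `P` of degree `m`, then the number of its roots modulo `p` is
at least `m - v_p(disc Q)`, and so the exponent of `p` in `W = ∏_(t ∈ J) Q(t)`, `J` an interval of
`L` integers, is at least `(m - v_p(disc Q)) ⌊L / p⌋`. Since `Σ_p v_p(disc Q) log p ≤ m² log (4 N)`,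
the total loss for each root is `O(r² log N)`.
(4) (`Arith`, `Fac`) So `log |W| ≥ m (log L! - (θ(L) - θ(N + 1 - 2 r)) - O(δ N + r² log N))`; if
`m ≥ 2` and the real parts of the roots of `Q` lie in `[b, b + 6 N / 5]`, `J = [b - a, b + 6 N / 5 + a]`,
`a = 7 N / 25`, this contradicts the upper bound `log |W| ≤ m (log (a! (L - a)!) + O(V log N))` of (1),
by the prime number theorem and `(7/25) log (44/7) + (37/25) log (44/37) > 19/25` (`Upper`, `Numeric`).
-/

set_option autoImplicit false

namespace Pool.Agent.Results.MP_014caa_ag.UniformFano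

open Polynomial

/-- The Chern roots: the complex roots of `P` with multiplicities. -/
noncomputable def chernRoots (P : ℤ[X]) : Multiset ℂ := (P.map (Int.castRingHom ℂ)).roots

/-- The Chern numbers of `N_X(-1)`: `(-1)^i` times the coefficient of `T^(r - i)` in `P(T + 1)` for
`i ≤ r`, and zero for `i > r`. -/
noncomputable def chernTwist (r : ℕ) (P : ℤ[X]) (i : ℕ) : ℤ :=
  if i ≤ r then (-1) ^ i * (P.comp (X + 1)).coeff (r - i) else 0

/-- The Schur polynomial of `N_X(-1)` of the partition with the parts `a_i - i`, `i < m`: the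
determinant of the Chern numbers with the index `a_i - j`, `i, j < m`. -/
noncomputable def schur (r : ℕ) (P : ℤ[X]) {m : ℕ} (a : Fin m → ℕ) : ℤ :=
  (Matrix.of fun i j : Fin m => if (j : ℕ) ≤ a i then chernTwist r P (a i - j) else 0).det

/-- `χ(ℙ^N, O(x)) = (x + 1) ... (x + N) / N!`. -/
noncomputable def chiPN (N : ℕ) (x : ℂ) : ℂ :=
  (∏ j ∈ Finset.range N, (x + j + 1)) / N.factorial

/-- `χ(O_X(x)) = Σ_S (-1)^|S| χ(ℙ^N, O(x - β_S))`, `S` running over the submultisets of the multiset
of the Chern roots of the normal bundle, `β_S` the sum of the elements of `S`. -/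
noncomputable def chiX (N : ℕ) (P : ℤ[X]) (x : ℂ) : ℂ :=
  ((chernRoots P).powerset.map fun S => (-1) ^ Multiset.card S * chiPN N (x - S.sum)).sum

/-- `χ((N_X^*)^{⊗ M}(x))`: `χ(O_X(x))` for `M = 0`, and the sum of the `χ((N_X^*)^{⊗ M}(x - β_i))` over
the Chern roots for `M + 1`. -/
noncomputable def chiTensor (N : ℕ) (P : ℤ[X]) : ℕ → ℂ → ℂ
  | 0, x => chiX N P x
  | M + 1, x => ((chernRoots P).map fun b => chiTensor N P M (x - b)).sum

/-- What is known of the Chern polynomial `P` of the normal bundle of a smooth subvariety `X` of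
codimension `r` of `ℙ^N`. -/
structure Conditions (N r : ℕ) (P : ℤ[X]) : Prop where
  monic : P.Monic
  natDegree : P.natDegree = r
  /-- the Schur polynomials of `N_X(-1)` of degree at most `dim X` are not negative -/
  schur_nonneg : ∀ (m : ℕ) (a : Fin m → ℕ), StrictMono a → ∑ i, (a i - i) ≤ N - r → 0 ≤ schur r P a
  /-- the Euler characteristics of all `(N_X^*)^{⊗ M}(t)` are integers -/
  chi_int : ∀ (M : ℕ) (t : ℤ), ∃ z : ℤ, chiTensor N P M t = z

/-- `c_1(N_X)`: minus the coefficient of `T^(r - 1)`; `ω_X = O_X(k)` means that it is `k + N + 1`. -/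
def c1 (r : ℕ) (P : ℤ[X]) : ℤ := -P.coeff (r - 1)

/-- `X` is numerically a complete intersection: `P = (T - a_1) ... (T - a_r)` with integers
`a_i ≥ 1`. -/
def IsNumericallyCompleteIntersection (r : ℕ) (P : ℤ[X]) : Prop :=
  ∃ a : Fin r → ℤ, (∀ i, 1 ≤ a i) ∧ P = ∏ i, (X - C (a i))

open Pool.Agent.N17.HC in
theorem bin_eq (N : ℕ) (x : ℂ) : bin N (N + x) = chiPN N x := by
  unfold bin chiPN
  congr 1
  rw [← Finset.prod_range_reflect]
  refine Finset.prod_congr rfl fun j hj => ?_
  have hj' := Finset.mem_range.1 hj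
  rw [show N - 1 - j = N - (j + 1) by omega, Nat.cast_sub (by omega)]
  push_cast
  ring

open Pool.Agent.N17.HC Pool.Agent.U429.UF in
theorem tens_eq (N : ℕ) (P : ℤ[X]) (M : ℕ) (x : ℂ) :
    tens N (rootsOf P) M (N + x) = chiTensor N P M x := by
  induction M generalizing x with
  | zero =>
    unfold tens kos chiTensor chiX
    change Multiset.sum (Multiset.map _ (Multiset.powerset (chernRoots P))) = _
    congr 1
    refine Multiset.map_congr rfl fun S _ => ?_
    rw [add_sub_assoc, bin_eq]
  | succ M ih =>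
    unfold tens chiTensor
    change Multiset.sum (Multiset.map _ (chernRoots P)) = _
    congr 1
    refine Multiset.map_congr rfl fun b _ => ?_
    rw [add_sub_assoc, ih]

theorem chern_eq {r i : ℕ} (P : ℤ[X]) (hi : i ≤ r) :
    Pool.Agent.N17.CK.chern r P i = chernTwist r P i := by
  rw [chernTwist, if_pos hi]
  rfl

theorem det_eq (r : ℕ) (P : ℤ[X]) {m : ℕ} (a : Fin m → ℕ) :
    (Matrix.of fun i j : Fin m =>
      Pool.Agent.U429.UF.toep (Pool.Agent.U429.UF.cr r P) (a i) j).det = ((schur r P a : ℤ) : ℝ) := by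
  rw [schur, Int.cast_det]
  congr 1
  ext i j
  simp only [Matrix.of_apply, Matrix.map_apply, Pool.Agent.U429.UF.toep]
  split_ifs with h
  · rw [Pool.Agent.U429.UF.cr]
    split_ifs with h2
    · rw [chern_eq P h2]
    · rw [chernTwist, if_neg h2, Int.cast_zero]
  · rw [Int.cast_zero]

theorem strictMono_le {m : ℕ} {a : Fin m → ℕ} (ha : StrictMono a) (k : ℕ) :
    ∀ (i : ℕ) (hi : i + k < m), a ⟨i, by omega⟩ + k ≤ a ⟨i + k, hi⟩ := by
  induction k with
  | zero => intro i hi; exact le_rfl
  | succ k ih =>
    intro i hi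
    have h1 := ih i (by omega)
    have h2 : a ⟨i + k, by omega⟩ < a ⟨i + (k + 1), hi⟩ := ha (by
      rw [Fin.mk_lt_mk]; omega)
    omega

theorem cond {N r : ℕ} {P : ℤ[X]} (h : Conditions N r P) (hr : 2 * r ≤ N) :
    Pool.Agent.U429.UF.CondU N r P := by
  refine ⟨h.monic, h.natDegree, ?_, ?_, ?_⟩
  · intro i hi
    have h1 := h.schur_nonneg 1 (fun _ => i) (by
      intro x y hxy
      exact absurd hxy (by simp [Subsingleton.elim x y])) (by simp; omega)
    rw [chern_eq P hi]
    simpa [schur] using h1
  · intro m hm a ha hlt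
    rw [det_eq]
    have h1 : ∀ i : Fin m, a i - i ≤ r := by
      intro i
      have h2 := strictMono_le ha (m - 1 - i) i (by omega)
      have h3 := hlt ⟨i + (m - 1 - i), by omega⟩
      have h4 : a ⟨(i : ℕ), i.2⟩ = a i := rfl
      omega
    have h2 : ∑ i, (a i - i) ≤ N - r := by
      calc ∑ i : Fin m, (a i - (i : ℕ)) ≤ ∑ _i : Fin m, r := Finset.sum_le_sum fun i _ => h1 i
        _ = m * r := by simp
        _ ≤ N - r := by omega
    exact_mod_cast h.schur_nonneg m a ha h2
  · intro M t
    obtain ⟨z, hz⟩ := h.chi_int M t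
    exact ⟨z, by rw [tens_eq]; exact hz⟩

/-- **The Chern roots of the normal bundles of smooth subvarieties of `ℙ^N`, uniformly in the
codimension.** -/
theorem result : ∃ c : ℝ, 0 < c ∧ ∀ (N r : ℕ) (B : ℝ), 2 ≤ N → 1 ≤ r → 1 ≤ B →
    B * (r : ℝ) ^ 2 * Real.log N ≤ c * N → ∀ P : ℤ[X], Conditions N r P → (c1 r P : ℝ) ≤ B * N →
      ∀ Q : ℤ[X], Q.Monic → Irreducible Q → Q ∣ P →
        (∃ a : ℤ, 1 ≤ a ∧ Q = X - C a) ∨
        ∃ β ∈ chernRoots Q, ∃ γ ∈ chernRoots Q,
          1 ≤ β.re ∧ β.re + 6 / 5 * (N : ℝ) < γ.re ∧ γ.re ≤ c1 r P := by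
  obtain ⟨c, hc, hsizes⟩ := Pool.Agent.U429.UF.sizes
  refine ⟨min c 1e-9, by positivity, fun N r B hN hr hB hle P h hc1 Q hQm hQi hQP => ?_⟩
  have hN2 : (2 : ℝ) ≤ N := by exact_mod_cast hN
  have hlog : 0 ≤ Real.log (N : ℝ) := Real.log_natCast_nonneg N
  have hle0 : (r : ℝ) ^ 2 * Real.log N ≤ B * (r : ℝ) ^ 2 * Real.log N := by
    have := mul_le_mul_of_nonneg_right hB (by positivity : 0 ≤ (r : ℝ) ^ 2 * Real.log N)
    linarith
  have hs : Pool.Agent.U429.UF.Sizes N r := hsizes N r hN hr
    ((hle0.trans hle).trans (mul_le_mul_of_nonneg_right (min_le_left _ _) (by linarith)))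
  have h2r : 2 * r ≤ N := by
    have h3 := hs.nat hr
    have h4 : 2 ≤ 8 * r + 1 := by omega
    exact (Nat.mul_le_mul_right r h4).trans h3
  exact Pool.Agent.U429.UF.main_gap hr hs (cond h h2r) hB
    (hle.trans (mul_le_mul_of_nonneg_right (min_le_right _ _) (by linarith))) hc1 hQm hQi hQP

/-- The case `ω_X = O_X(k)`, `k + 1 ≤ N / 5`. -/
theorem fano : ∃ c : ℝ, 0 < c ∧ ∀ N r : ℕ, 2 ≤ N → 1 ≤ r → (r : ℝ) ^ 2 * Real.log N ≤ c * N →
    ∀ (P : ℤ[X]) (k : ℤ), Conditions N r P → c1 r P = k + N + 1 → (k : ℝ) + 1 ≤ N / 5 →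
      IsNumericallyCompleteIntersection r P := by
  obtain ⟨c, hc, hmain⟩ := result
  refine ⟨c / 2, by positivity, fun N r hN hr hle P k h hk1 hk2 => ?_⟩
  have hN2 : (2 : ℝ) ≤ N := by exact_mod_cast hN
  have hlog : 0 ≤ Real.log (N : ℝ) := Real.log_natCast_nonneg N
  have hr2 : 0 ≤ (r : ℝ) ^ 2 * Real.log N := by positivity
  have hc1 : ((c1 r P : ℤ) : ℝ) ≤ 6 / 5 * N := by
    rw [hk1]
    push_cast
    linarith
  refine Pool.Agent.N17.CK.t_END r P h.monic h.natDegree fun Q hQm hQi hQP => ?_
  rcases hmain N r (6 / 5) hN hr (by norm_num) (by linarith) P h hc1 Q hQm hQi hQP with h1 | h1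
  · exact h1
  · obtain ⟨β, -, γ, -, h1, h2, h3⟩ := h1
    linarith

end Pool.Agent.Results.MP_014caa_ag.UniformFano
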